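import Pool.Agent.Lib.BWP.Defs

/-!
# Parities for free: row FAMILY3 (helper32), after `Pool.Agent.Lib.BW.Fam2`
-/

set_option autoImplicit false

namespace Pool.Agent.BWP

open Finset Pool.Agent.SL

/-- Row FAMILY3 -/
theorem family3 : Family3 := by
  intro c ℓ n B N M hc1 hℓ hn hN hM hB1 hℓB hE3 hE2' Lc q hq hL
  have hE2 : (100 * c + 300) * B ^ (c + 2) ≤ 2 ^ ℓ :=
    le_trans (Nat.mul_le_mul_right _ (by omega)) hE2'
  have hn1 : 1 ≤ n := by rw [hn]; exact Nat.one_le_two_pow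
  have hnN : n ≤ N := by rw [hN]; exact Nat.le_mul_of_pos_right _ hB1
  have hN1 : 1 ≤ N := le_trans hn1 hnN
  have hBN : B ≤ N := by rw [hN]; exact Nat.le_mul_of_pos_left _ hn1
  have hM1 : 1 ≤ M := by rw [hM]; exact Nat.one_le_pow _ _ hN1
  have hN2 : N ≤ 2 ^ (2 * ℓ) := by
    rw [hN]
    calc n * B ≤ n * n := Nat.mul_le_mul_left _ (by rw [hn]; exact hE3)
      _ = 2 ^ (2 * ℓ) := by rw [hn, ← pow_add]; congr 1; ring
  have hMp : M ≤ 2 ^ (2 * ℓ * c) := by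
    rw [hM]
    calc N ^ c ≤ (2 ^ (2 * ℓ)) ^ c := Nat.pow_le_pow_left hN2 c
      _ = 2 ^ (2 * ℓ * c) := by rw [← pow_mul]
  have hNM : N + M ≤ 2 ^ (2 * ℓ * (c + 1) + 1) := by
    have e1 : N ≤ 2 ^ (2 * ℓ * (c + 1)) :=
      le_trans hN2 (Nat.pow_le_pow_right (by norm_num) (by nlinarith))
    have e2 : M ≤ 2 ^ (2 * ℓ * (c + 1)) :=
      le_trans hMp (Nat.pow_le_pow_right (by norm_num) (by nlinarith))
    calc N + M ≤ 2 ^ (2 * ℓ * (c + 1)) + 2 ^ (2 * ℓ * (c + 1)) := Nat.add_le_add e1 e2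
      _ = 2 ^ (2 * ℓ * (c + 1) + 1) := by rw [pow_succ 2 (2 * ℓ * (c + 1))]; omega
  -- circuits
  have hcirc : M * ((N + M) ^ 2) ^ M ≤ 2 ^ ((6 * c + 6) * ℓ * M) := by
    calc M * ((N + M) ^ 2) ^ M
        ≤ 2 ^ (2 * ℓ * c) * ((2 ^ (2 * ℓ * (c + 1) + 1)) ^ 2) ^ M := by gcongr
      _ = 2 ^ (2 * ℓ * c + (2 * ℓ * (c + 1) + 1) * 2 * M) := by
          rw [← pow_mul, ← pow_mul, ← pow_add, mul_assoc (2 * ℓ * (c + 1) + 1) 2 M]
      _ ≤ 2 ^ ((6 * c + 6) * ℓ * M) := by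
          apply Nat.pow_le_pow_right (by norm_num)
          have e1 : 2 * ℓ * c ≤ 2 * ℓ * c * M := Nat.le_mul_of_pos_right _ hM1
          calc 2 * ℓ * c + (2 * ℓ * (c + 1) + 1) * 2 * M
              ≤ 2 * ℓ * c * M + (2 * ℓ * (c + 1) + 1) * 2 * M := by gcongr
            _ = (2 * ℓ * c + (2 * ℓ * (c + 1) + 1) * 2) * M := by ring
            _ ≤ ((6 * c + 6) * ℓ) * M := by
                apply Nat.mul_le_mul_right
                nlinarith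
  have hNM' : N ≤ M := by
    rw [hM]
    exact Nat.le_self_pow (by omega) N
  have hF3 : 2 ^ n * (2 ^ B) ^ n = 2 ^ (n + N) := by
    rw [← pow_mul, ← pow_add, hN]
    congr 1; ring
  have hNN : N * N ≤ M := by
    rw [hM]
    calc N * N = N ^ 2 := by ring
      _ ≤ N ^ c := Nat.pow_le_pow_right hN1 hc1
  have hcube : 2 ^ (N * N + N) ≤ 2 ^ ((6 * c + 6) * ℓ * M) := by
    apply Nat.pow_le_pow_right (by norm_num)
    have h2 : 2 ≤ (6 * c + 6) * ℓ := by nlinarith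
    calc N * N + N ≤ 2 * M := by omega
      _ ≤ (6 * c + 6) * ℓ * M := Nat.mul_le_mul_right _ h2
  have hLc : 2 * (Lc + 2 ^ (N * N + N)) + 1 ≤ 2 ^ ((6 * c + 6) * ℓ * M + 3) := by
    have e1 : 2 ^ M ≤ 2 ^ ((6 * c + 6) * ℓ * M) := by
      apply Nat.pow_le_pow_right (by norm_num)
      exact Nat.le_mul_of_pos_left _ (by nlinarith)
    have e2 : Lc ≤ 2 ^ ((6 * c + 6) * ℓ * M) + 2 ^ ((6 * c + 6) * ℓ * M) :=
      le_trans hL (Nat.add_le_add e1 hcirc)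
    have e3 : 1 ≤ 2 ^ ((6 * c + 6) * ℓ * M) := Nat.one_le_two_pow
    have e4 : 2 ^ ((6 * c + 6) * ℓ * M + 3) = 8 * 2 ^ ((6 * c + 6) * ℓ * M) := by
      rw [pow_add]; ring
    omega
  have hF1 : (2 * (Lc + 2 ^ (N * N + N)) + 1) ^ (q + 8) ≤
      2 ^ (((6 * c + 6) * ℓ * M + 3) * (N + 8)) := by
    calc (2 * (Lc + 2 ^ (N * N + N)) + 1) ^ (q + 8) ≤
          (2 ^ ((6 * c + 6) * ℓ * M + 3)) ^ (q + 8) :=
          Nat.pow_le_pow_left hLc _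
      _ = 2 ^ (((6 * c + 6) * ℓ * M + 3) * (q + 8)) := by rw [← pow_mul]
      _ ≤ 2 ^ (((6 * c + 6) * ℓ * M + 3) * (N + 8)) := by
          apply Nat.pow_le_pow_right (by norm_num)
          gcongr
  have hF2 : (2 * (n ^ 2 * (2 ^ B) ^ 2) + 1) ^ M ≤ 2 ^ ((2 * ℓ + 2 * B + 2) * M) := by
    have e1 : n ^ 2 * (2 ^ B) ^ 2 = 2 ^ (2 * ℓ + 2 * B) := by
      rw [hn, ← pow_mul, ← pow_mul, ← pow_add]
      congr 1; ring
    have e2 : 2 * (n ^ 2 * (2 ^ B) ^ 2) + 1 ≤ 2 ^ (2 * ℓ + 2 * B + 2) := by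
      rw [e1, pow_add _ (2 * ℓ + 2 * B) 2]
      have : 1 ≤ 2 ^ (2 * ℓ + 2 * B) := Nat.one_le_two_pow
      omega
    calc (2 * (n ^ 2 * (2 ^ B) ^ 2) + 1) ^ M ≤ (2 ^ (2 * ℓ + 2 * B + 2)) ^ M :=
          Nat.pow_le_pow_left e2 _
      _ = 2 ^ ((2 * ℓ + 2 * B + 2) * M) := by rw [← pow_mul]
  have hF4 : (n - 1) ^ n ≤ 2 ^ (ℓ * n) := by
    calc (n - 1) ^ n ≤ n ^ n := Nat.pow_le_pow_left (Nat.sub_le _ _) _
      _ = 2 ^ (ℓ * n) := by
          have e : n ^ n = (2 ^ ℓ) ^ n := by rw [← hn]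
          rw [e, ← pow_mul]
  set Y : ℕ := ((6 * c + 6) * ℓ * M + 3) * (N + 8) + (2 * ℓ + 2 * B + 2) * M with hY
  have hprod : (2 * (Lc + 2 ^ (N * N + N)) + 1) ^ (q + 8) *
      (2 * (n ^ 2 * (2 ^ B) ^ 2) + 1) ^ M * (2 ^ n * (2 ^ B) ^ n) + 2 ^ n * 2 ^ (N * N + N) + 1 ≤
      2 ^ (Y + (n + 2 * N) + 2) := by
    have h1 : (2 * (Lc + 2 ^ (N * N + N)) + 1) ^ (q + 8) *
        (2 * (n ^ 2 * (2 ^ B) ^ 2) + 1) ^ M * (2 ^ n * (2 ^ B) ^ n) ≤ 2 ^ (Y + (n + 2 * N)) := by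
      rw [hF3]
      calc (2 * (Lc + 2 ^ (N * N + N)) + 1) ^ (q + 8) *
            (2 * (n ^ 2 * (2 ^ B) ^ 2) + 1) ^ M * 2 ^ (n + N)
          ≤ 2 ^ (((6 * c + 6) * ℓ * M + 3) * (N + 8)) * 2 ^ ((2 * ℓ + 2 * B + 2) * M) *
              2 ^ (n + N) := by
            gcongr
        _ = 2 ^ (Y + (n + N)) := by rw [hY, ← pow_add, ← pow_add]
        _ ≤ 2 ^ (Y + (n + 2 * N)) := Nat.pow_le_pow_right (by norm_num) (by omega)
    have hYM : M ≤ Y := by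
      have h2 : 1 ≤ 2 * ℓ + 2 * B + 2 := by omega
      calc M = 1 * M := by ring
        _ ≤ (2 * ℓ + 2 * B + 2) * M := Nat.mul_le_mul_right _ h2
        _ ≤ Y := by rw [hY]; exact Nat.le_add_left _ _
    have h2 : 2 ^ n * 2 ^ (N * N + N) ≤ 2 ^ (Y + (n + 2 * N)) := by
      rw [← pow_add]
      exact Nat.pow_le_pow_right (by norm_num) (by omega)
    have h3 : 1 ≤ 2 ^ (Y + (n + 2 * N)) := Nat.one_le_two_pow
    have h4 : 2 ^ (Y + (n + 2 * N) + 2) = 4 * 2 ^ (Y + (n + 2 * N)) := by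
      rw [pow_add]
      ring
    omega
  -- the exponent
  have hexp : Y + (n + 2 * N) + 2 + n + ℓ * n < 2 * 2 ^ ((c + 2) * ℓ) := by
    have hMN : M * N = N ^ (c + 1) := by rw [hM, pow_succ]
    have hMBN : M ≤ B * N ^ (c + 1) := by
      calc M = 1 * (M * 1) := by ring
        _ ≤ B * (M * N) := by gcongr
        _ = B * N ^ (c + 1) := by rw [hMN]
    have hNBN : N ≤ B * N ^ (c + 1) := by
      calc N = 1 * (1 * N) := by ring
        _ ≤ B * (M * N) := by gcongr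
        _ = B * N ^ (c + 1) := by rw [hMN]
    have hBM : B * M ≤ B * N ^ (c + 1) := by
      rw [← hMN]
      exact Nat.mul_le_mul_left _ (Nat.le_mul_of_pos_right _ hN1)
    have t1 : ((6 * c + 6) * ℓ * M + 3) * (N + 8) ≤ (54 * c + 81) * (B * N ^ (c + 1)) := by
      have a1 : (6 * c + 6) * ℓ * M + 3 ≤ (6 * c + 9) * (B * M) := by
        have : ℓ * M ≤ B * M := Nat.mul_le_mul_right _ hℓB
        have h3 : 1 ≤ B * M := Nat.mul_pos hB1 hM1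
        calc (6 * c + 6) * ℓ * M + 3 = (6 * c + 6) * (ℓ * M) + 3 * 1 := by ring
          _ ≤ (6 * c + 6) * (B * M) + 3 * (B * M) := by gcongr
          _ = (6 * c + 9) * (B * M) := by ring
      have a2 : N + 8 ≤ 9 * N := by omega
      calc ((6 * c + 6) * ℓ * M + 3) * (N + 8) ≤ ((6 * c + 9) * (B * M)) * (9 * N) :=
            Nat.mul_le_mul a1 a2
        _ = (54 * c + 81) * (B * (M * N)) := by ring
        _ = (54 * c + 81) * (B * N ^ (c + 1)) := by rw [hMN]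
    have t2 : (2 * ℓ + 2 * B + 2) * M ≤ 6 * (B * N ^ (c + 1)) := by
      calc (2 * ℓ + 2 * B + 2) * M ≤ (6 * B) * M := by
            apply Nat.mul_le_mul_right
            omega
        _ = 6 * (B * M) := by ring
        _ ≤ 6 * (B * N ^ (c + 1)) := Nat.mul_le_mul_left _ hBM
    have hℓn : ℓ * n ≤ N := by
      rw [hN, mul_comm]
      exact Nat.mul_le_mul_left _ hℓB
    have t3 : (n + 2 * N) + 2 + n + ℓ * n ≤ 7 * (B * N ^ (c + 1)) := by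
      have : (n + 2 * N) + 2 + n + ℓ * n ≤ 7 * N := by omega
      exact le_trans this (Nat.mul_le_mul_left _ hNBN)
    have hZ : Y + (n + 2 * N) + 2 + n + ℓ * n + 1 ≤ (100 * c + 300) * (B * N ^ (c + 1)) := by
      have h1 : 1 ≤ B * N ^ (c + 1) := le_trans hN1 hNBN
      have e : (100 * c + 300) * (B * N ^ (c + 1)) = (54 * c + 81) * (B * N ^ (c + 1))
          + 6 * (B * N ^ (c + 1)) + 7 * (B * N ^ (c + 1)) + 206 * (B * N ^ (c + 1)) +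
          46 * c * (B * N ^ (c + 1)) := by ring
      rw [hY, e]
      omega
    have hBN2 : B * N ^ (c + 1) = B ^ (c + 2) * 2 ^ (ℓ * (c + 1)) := by
      rw [hN, hn, mul_pow, ← pow_mul]
      ring
    have hfin : (100 * c + 300) * (B * N ^ (c + 1)) ≤ 2 ^ ((c + 2) * ℓ) := by
      rw [hBN2]
      calc (100 * c + 300) * (B ^ (c + 2) * 2 ^ (ℓ * (c + 1)))
          = ((100 * c + 300) * B ^ (c + 2)) * 2 ^ (ℓ * (c + 1)) := by ring
        _ ≤ 2 ^ ℓ * 2 ^ (ℓ * (c + 1)) := by gcongr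
        _ = 2 ^ ((c + 2) * ℓ) := by rw [← pow_add]; congr 1; ring
    omega
  calc ((2 * (Lc + 2 ^ (N * N + N)) + 1) ^ (q + 8) *
      (2 * (n ^ 2 * (2 ^ B) ^ 2) + 1) ^ M * (2 ^ n * (2 ^ B) ^ n) + 2 ^ n * 2 ^ (N * N + N) + 1) * 2 ^ n *
        (n - 1) ^ n
      ≤ 2 ^ (Y + (n + 2 * N) + 2) * 2 ^ n * 2 ^ (ℓ * n) := by gcongr
    _ = 2 ^ (Y + (n + 2 * N) + 2 + n + ℓ * n) := by
        rw [pow_add _ (Y + (n + 2 * N) + 2 + n) (ℓ * n), pow_add _ (Y + (n + 2 * N) + 2) n]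
    _ < 2 ^ (2 * 2 ^ ((c + 2) * ℓ)) := Nat.pow_lt_pow_right (by norm_num) hexp
    _ = 4 ^ (2 ^ ((c + 2) * ℓ)) := by rw [pow_mul]; norm_num

end Pool.Agent.BWP
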