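import Pool.Agent.Lib.BWP.Aff

/-!
# Parities for free: rows CELLS3, FAMILY3, LAST3
-/

set_option autoImplicit false

namespace Pool.Agent.BWP

open Finset Pool.Agent.SL Pool.Agent.BW

/-- Row CELLS3: a set which depends on the parities in `L`, inside of `Cube E0 y0` -/
def Cells3 : Prop :=
  ∀ (n m b : ℕ) (g : Fin n → (Fin b → Bool) → Fin m) (κ : (Fin n → Fin b → Bool) → ℝ)
    (base cl : Finset (Finset (Fin n → Fin b → Bool))) (E0 : Finset (Fin n × Fin b))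
    (y0 : Fin n → Fin b → Bool) (L : Finset (Finset (Fin n × Fin b)))
    (W : Finset (Fin n → Fin b → Bool)) (r f τ t : ℕ) (gap : ℝ),
    1 ≤ f → 1 ≤ r → r * 2 ^ f ≤ 2 ^ b → (∀ v ∈ E0, {v} ∈ L) →
    L.card * (b + f) ≤ τ * f → L.card ≤ t * f →
    (∀ (L' : Finset (Finset (Fin n × Fin b))) (y : Fin n → Fin b → Bool), L'.card ≤ τ →
      AffL L' y ∈ base) →
    (∀ i j a a', i ≠ j → g i a = g j a' →
      (univ.filter fun ω : Fin n → Fin b → Bool => ω i = a ∧ ω j = a') ∈ cl) →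
    (∀ (T : Finset (Fin n)) (L' : Finset (Finset (Fin n × Fin b))) (y : Fin n → Fin b → Bool),
      T.card ≤ t → L'.card ≤ τ → Spread r T (AffL L' y) → AffL L' y ⊆ Fib T y →
      ¬ Dead g T y → gap ≤ ∑ x ∈ AffL L' y, κ x) →
    (∀ x y : Fin n → Fin b → Bool, (∀ Q ∈ L, par Q (R8x.toA x) = par Q (R8x.toA y)) →
      x ∈ W → y ∈ W) →
    ∃ (ι : Type) (_ : Fintype ι) (_ : DecidableEq ι) (c : (Fin n → Fin b → Bool) → ι),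
      Fintype.card ι ≤ 2 ^ τ ∧ (∀ i, (univ.filter fun x => c x = i) ∈ base) ∧
      (∀ x ∈ Cube E0 y0, ∀ y ∈ Cube E0 y0, c x = c y → x ∈ W → y ∈ W) ∧
      ∀ i, (∀ x ∈ Cube E0 y0, c x ≠ i) ∨ (∃ C ∈ cl, ∀ x ∈ Cube E0 y0, c x = i → x ∈ C) ∨
        gap ≤ Sg κ (Cube E0 y0) [univ.filter fun x => c x = i]

/-- Row FAMILY3: as `Pool.Agent.BW.family2`, with all affine sets in place of the cubes -/
def Family3 : Prop :=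
  ∀ (c ℓ n B N M : ℕ), 2 ≤ c → 3 ≤ ℓ → n = 2 ^ ℓ → N = n * B → M = N ^ c → 1 ≤ B → ℓ ≤ B →
    B ≤ 2 ^ ℓ → (200 * c + 600) * B ^ (c + 2) ≤ 2 ^ ℓ → ∀ Lc q : ℕ, q ≤ N →
    Lc ≤ 2 ^ M + M * ((N + M) ^ 2) ^ M →
    ((2 * (Lc + 2 ^ (N * N + N)) + 1) ^ (q + 8) * (2 * (n ^ 2 * (2 ^ B) ^ 2) + 1) ^ M
      * (2 ^ n * (2 ^ B) ^ n) + 2 ^ n * 2 ^ (N * N + N) + 1) * 2 ^ n * (n - 1) ^ n
      < 4 ^ (2 ^ ((c + 2) * ℓ))

/-- Row LAST3: the statement of the hand-in -/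
def Last3 : Prop :=
  ∀ c : ℕ, 2 ≤ c → ∃ (δ : ℝ) (K ℓ₀ : ℕ), 0 < δ ∧ 0 < K ∧
    ∀ ℓ n b N : ℕ, ℓ₀ ≤ ℓ → n = 2 ^ ℓ → b = K * ℓ → N = n * b →
      ∀ V : Finset ((Fin n × Fin b → Bool) → Bool), V.card ≤ 2 ^ (N ^ c) →
        ∃ F : Finset (Clause (Fin n × Fin b)),
          (∀ x, ∃ C ∈ F, ¬ Holds C x) ∧ F.card ≤ N ^ (2 * c + 40) ∧ (∀ C ∈ F, C.card ≤ 2 * b) ∧
          ∀ t S D : ℕ, (t : ℝ) ≤ δ * N →
            Nonempty (Refutation F (fun f => f ∈ V ∨ HasCircuit (N ^ c) f) t (N ^ c) S D) →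
              δ * (N : ℝ) ^ 2 ≤ ((D : ℝ) + N) * Real.logb 2 ((S : ℝ) + 1)

end Pool.Agent.BWP
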