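import Pool.Agent.Lib.SL.Model

/-!
# Bounded workspace with parities for free (MP_e81270_lc): the definitions used by the statement

Circuits and clauses: `Pool.Agent.Lib.SL.Model`.
-/

set_option autoImplicit false

namespace Pool.Agent.BWP

open Pool.Agent.SL

/-- the parity of the variables in `Q` -/
def par {ν : Type} (Q : Finset ν) (x : ν → Bool) : Bool :=
  decide (Odd (Q.filter (fun v => x v = true)).card)

/-- A simple line: the disjunction of a clause `C` of any width and of an arbitrary Boolean
function `h` of at most `t` parities (of arbitrary sets of variables). -/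
def IsSimple {ν : Type} (t : ℕ) (f : (ν → Bool) → Bool) : Prop :=
  ∃ (C : Clause ν) (P : Fin t → Finset ν) (h : (ν → Bool) → Bool),
    (∀ x y, (∀ j, par (P j) x = par (P j) y) → h x = h y) ∧
    ∀ x, f x = true ↔ Holds C x ∨ h x = true

/-- A refutation of the CNF `F` with `S` lines. The lines are Boolean functions; the lines in the
set `simple` satisfy `IsSimple t`, the other ones, the complex lines, satisfy `Line`. One line is
constantly false, and every line is implied by at most two earlier lines together with at most `r`
clauses of `F`. For a complex line, `rank` is not less than for its complex premises, and it is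
greater than for both of them if there are two complex premises. So `D` bounds the number of
inferences from two complex lines on every path of the proof which consists of complex lines. -/
structure Refutation {ν : Type} (F : Finset (Clause ν)) (Line : ((ν → Bool) → Bool) → Prop)
    (t r S D : ℕ) where
  line : Fin S → (ν → Bool) → Bool
  simple : Finset (Fin S)
  isSimple : ∀ k ∈ simple, IsSimple t (line k)
  isLine : ∀ k ∉ simple, Line (line k)
  rank : Fin S → ℕ
  rank_le : ∀ k ∉ simple, rank k ≤ D
  last : ∃ k, ∀ x, line k x = false
  infer : ∀ k, ∃ R ⊆ F, R.card ≤ r ∧ ∃ P : Finset (Fin S), P.card ≤ 2 ∧ (∀ i ∈ P, i < k) ∧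
    (∀ x, (∀ C ∈ R, Holds C x) → (∀ i ∈ P, line i x = true) → line k x = true) ∧
    (k ∉ simple → (∀ i ∈ P \ simple, rank i ≤ rank k) ∧
      (2 ≤ (P \ simple).card → ∀ i ∈ P \ simple, rank i < rank k))

end Pool.Agent.BWP
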