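import Pool.Agent.Lib.SL.R8b
import Pool.Agent.Lib.BW.Defs5
import Pool.Agent.Lib.BWP.Model

/-!
# Parities for free: affine cells are spread outside of a small set of blocks
-/

set_option autoImplicit false

namespace Pool.Agent.BWP

open Finset Pool.Agent.SL Pool.Agent.BW

theorem par_empty {ν : Type} (x : ν → Bool) : par (∅ : Finset ν) x = false := by
  simp [par]

theorem par_singleton {ν : Type} [DecidableEq ν] (v : ν) (x : ν → Bool) :
    par ({v} : Finset ν) x = x v := by
  unfold par
  rw [filter_singleton]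
  by_cases h : x v = true
  · simp [h]
  · have h' : x v = false := by simpa using h
    simp [h']

theorem par_xor {ν : Type} (Q : Finset ν) (x z : ν → Bool) :
    par Q (fun v => xor (x v) (z v)) = xor (par Q x) (par Q z) := by
  have h : (Q.filter (fun v => xor (x v) (z v) = true)).card +
      2 * (Q.filter (fun v => x v = true ∧ z v = true)).card =
      (Q.filter (fun v => x v = true)).card + (Q.filter (fun v => z v = true)).card := by
    simp only [card_filter, mul_sum, ← sum_add_distrib]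
    refine sum_congr rfl fun v _ => ?_
    cases x v <;> cases z v <;> simp
  unfold par
  generalize (Q.filter (fun v => xor (x v) (z v) = true)).card = c1 at h ⊢
  generalize (Q.filter (fun v => x v = true ∧ z v = true)).card = c2 at h ⊢
  generalize (Q.filter (fun v => x v = true)).card = c3 at h ⊢
  generalize (Q.filter (fun v => z v = true)).card = c4 at h ⊢
  by_cases h3 : Odd c3 <;> by_cases h4 : Odd c4
  · have : ¬ Odd c1 := by
      rw [Nat.odd_iff] at *
      omega
    simp [h3, h4, this]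
  · have : Odd c1 := by
      rw [Nat.odd_iff] at *
      omega
    simp [h3, h4, this]
  · have : Odd c1 := by
      rw [Nat.odd_iff] at *
      omega
    simp [h3, h4, this]
  · have : ¬ Odd c1 := by
      rw [Nat.odd_iff] at *
      omega
    simp [h3, h4, this]

section

variable {n b : ℕ}

/-- bitwise xor -/
def xo (x z : Fin n → Fin b → Bool) : Fin n → Fin b → Bool := fun i u => xor (x i u) (z i u)

theorem par_xo (Q : Finset (Fin n × Fin b)) (x z : Fin n → Fin b → Bool) :
    par Q (R8x.toA (xo x z)) = xor (par Q (R8x.toA x)) (par Q (R8x.toA z)) :=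
  par_xor Q (R8x.toA x) (R8x.toA z)

theorem xo_xo (x z : Fin n → Fin b → Bool) : xo (xo x z) z = x := by
  funext i u
  simp [xo]

/-- number of solutions of the homogeneous system which vanish on the blocks of `T` -/
def kk (L : Finset (Finset (Fin n × Fin b))) (T : Finset (Fin n)) : ℕ :=
  (univ.filter (fun x : Fin n → Fin b → Bool =>
    (∀ Q ∈ L, par Q (R8x.toA x) = false) ∧ ∀ i ∈ T, x i = fun _ => false)).card

/-- all nonempty fibres have the same number of points -/
theorem fib_card (L : Finset (Finset (Fin n × Fin b))) (T : Finset (Fin n))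
    (y : Fin n → Fin b → Bool) :
    (univ.filter (fun x : Fin n → Fin b → Bool =>
      (∀ Q ∈ L, par Q (R8x.toA x) = par Q (R8x.toA y)) ∧ ∀ i ∈ T, x i = y i)).card = kk L T := by
  unfold kk
  refine card_nbij' (fun x => xo x y) (fun x => xo x y) ?_ ?_ ?_ ?_
  · intro x hx
    rw [mem_coe, mem_filter] at hx ⊢
    refine ⟨mem_univ _, fun Q hQ => ?_, fun i hi => ?_⟩
    · rw [par_xo, hx.2.1 Q hQ]
      simp
    · funext u
      simp [xo, hx.2.2 i hi]
  · intro x hx
    rw [mem_coe, mem_filter] at hx ⊢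
    refine ⟨mem_univ _, fun Q hQ => ?_, fun i hi => ?_⟩
    · rw [par_xo, hx.2.1 Q hQ]
      simp
    · funext u
      simp [xo, hx.2.2 i hi]
  · intro x _
    exact xo_xo x y
  · intro x _
    exact xo_xo x y

/-- the affine set through `y` -/
def AffL (L : Finset (Finset (Fin n × Fin b))) (y : Fin n → Fin b → Bool) :
    Finset (Fin n → Fin b → Bool) :=
  univ.filter (fun x => ∀ Q ∈ L, par Q (R8x.toA x) = par Q (R8x.toA y))

theorem mem_AffL {L : Finset (Finset (Fin n × Fin b))} {x y : Fin n → Fin b → Bool} :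
    x ∈ AffL L y ↔ ∀ Q ∈ L, par Q (R8x.toA x) = par Q (R8x.toA y) := by
  simp [AffL]

/-- the single variables of the blocks of `T` -/
def sing (E : Finset (Fin n × Fin b)) : Finset (Finset (Fin n × Fin b)) := E.image fun v => {v}

theorem sing_card (E : Finset (Fin n × Fin b)) : (sing E).card ≤ E.card := card_image_le

theorem mem_AffL_sing {L : Finset (Finset (Fin n × Fin b))} {E : Finset (Fin n × Fin b)}
    {x y : Fin n → Fin b → Bool} :
    x ∈ AffL (L ∪ sing E) y ↔
      (∀ Q ∈ L, par Q (R8x.toA x) = par Q (R8x.toA y)) ∧ ∀ v ∈ E, x v.1 v.2 = y v.1 v.2 := by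
  rw [mem_AffL]
  constructor
  · intro h
    refine ⟨fun Q hQ => h Q (mem_union_left _ hQ), fun v hv => ?_⟩
    have := h {v} (mem_union_right _ (mem_image_of_mem _ hv))
    rwa [par_singleton, par_singleton] at this
  · rintro ⟨h1, h2⟩ Q hQ
    rcases mem_union.1 hQ with h | h
    · exact h1 Q h
    · obtain ⟨v, hv, rfl⟩ := mem_image.1 h
      rw [par_singleton, par_singleton]
      exact h2 v hv

theorem mem_blocks {T : Finset (Fin n)} {x y : Fin n → Fin b → Bool} :
    (∀ v ∈ T ×ˢ (univ : Finset (Fin b)), x v.1 v.2 = y v.1 v.2) ↔ ∀ i ∈ T, x i = y i := by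
  constructor
  · intro h i hi
    funext u
    exact h (i, u) (mem_product.2 ⟨hi, mem_univ _⟩)
  · intro h v hv
    rw [h v.1 (mem_product.1 hv).1]

/-- the cell: an affine set, fixed on the blocks of `T` -/
theorem mem_cell {L : Finset (Finset (Fin n × Fin b))} {T : Finset (Fin n)}
    {x y : Fin n → Fin b → Bool} :
    x ∈ AffL (L ∪ sing (T ×ˢ univ)) y ↔
      (∀ Q ∈ L, par Q (R8x.toA x) = par Q (R8x.toA y)) ∧ ∀ i ∈ T, x i = y i := by
  rw [mem_AffL_sing, mem_blocks]

theorem cell_card (L : Finset (Finset (Fin n × Fin b))) (T : Finset (Fin n))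
    (y : Fin n → Fin b → Bool) : (AffL (L ∪ sing (T ×ˢ univ)) y).card = kk L T := by
  rw [← fib_card L T y]
  congr 1
  ext x
  rw [mem_cell, mem_filter]
  simp

theorem spread_cell (L : Finset (Finset (Fin n × Fin b))) (T : Finset (Fin n)) (r : ℕ)
    (h : ∀ B : Finset (Fin n), Disjoint B T → kk L (T ∪ B) * r ^ B.card ≤ kk L T)
    (y : Fin n → Fin b → Bool) : Spread r T (AffL (L ∪ sing (T ×ˢ univ)) y) := by
  intro B hB a
  rw [cell_card]
  rcases Finset.eq_empty_or_nonempty
    ((AffL (L ∪ sing (T ×ˢ univ)) y).filter (fun x => ∀ i ∈ B, x i = a i)) with h0 | ⟨z, hz⟩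
  · rw [h0]
    simp
  · refine le_trans (Nat.mul_le_mul_right _ ?_) (h B hB)
    rw [← fib_card L (T ∪ B) z]
    refine card_le_card fun x hx => ?_
    rw [mem_filter, mem_cell] at hx hz
    rw [mem_filter]
    refine ⟨mem_univ _, fun Q hQ => ?_, fun i hi => ?_⟩
    · rw [hx.1.1 Q hQ, hz.1.1 Q hQ]
    · rcases mem_union.1 hi with hi | hi
      · rw [hx.1.2 i hi, hz.1.2 i hi]
      · rw [hx.2 i hi, hz.2 i hi]

theorem card_X : Fintype.card (Fin n → Fin b → Bool) = (2 ^ b) ^ n := by
  rw [Fintype.card_fun, Fintype.card_fun, Fintype.card_bool, Fintype.card_fin, Fintype.card_fin]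

theorem aff_card_lower (L : Finset (Finset (Fin n × Fin b))) (y : Fin n → Fin b → Bool) :
    (2 ^ b) ^ n ≤ (AffL L y).card * 2 ^ L.card := by
  classical
  have h1 : ∀ z, (AffL L z).card = kk L ∅ := by
    intro z
    rw [← fib_card L ∅ z]
    congr 1
    ext x
    rw [mem_AffL, mem_filter]
    simp
  rw [h1 y]
  set Φ : (Fin n → Fin b → Bool) → ({Q // Q ∈ L} → Bool) := fun x Q => par Q.1 (R8x.toA x)
    with hΦ
  have h2 := card_le_mul_card_image (s := (univ : Finset (Fin n → Fin b → Bool)))
    (f := Φ) (kk L ∅) (by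
      intro v hv
      obtain ⟨z, _, rfl⟩ := mem_image.1 hv
      rw [← h1 z]
      refine card_le_card fun x hx => ?_
      rw [mem_filter] at hx
      rw [mem_AffL]
      intro Q hQ
      exact congrFun hx.2 ⟨Q, hQ⟩)
  rw [card_univ, card_X] at h2
  refine h2.trans (Nat.mul_le_mul_left _ ?_)
  refine (card_le_univ _).trans (le_of_eq ?_)
  rw [Fintype.card_fun, Fintype.card_coe, Fintype.card_bool]

theorem closure (L : Finset (Finset (Fin n × Fin b))) (r f : ℕ) (hr : 1 ≤ r)
    (hf : r * 2 ^ f ≤ 2 ^ b) :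
    ∃ T : Finset (Fin n), f * T.card ≤ L.card ∧
      ∀ B : Finset (Fin n), Disjoint B T → kk L (T ∪ B) * r ^ B.card ≤ kk L T := by
  obtain ⟨T, -, hT⟩ := exists_max_image (univ : Finset (Finset (Fin n)))
    (fun T => kk L T * r ^ T.card) ⟨∅, mem_univ _⟩
  refine ⟨T, ?_, fun B hB => ?_⟩
  · have h1 := hT ∅ (mem_univ _)
    rw [card_empty, pow_zero, mul_one] at h1
    have h2 := aff_card_lower L (fun _ _ => false : Fin n → Fin b → Bool)
    have h3 : (AffL L (fun _ _ => false : Fin n → Fin b → Bool)).card = kk L ∅ := by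
      rw [← fib_card L ∅ (fun _ _ => false)]
      congr 1
      ext x
      rw [mem_AffL, mem_filter]
      simp
    rw [h3] at h2
    have h4 : kk L T * (2 ^ b) ^ T.card ≤ (2 ^ b) ^ n := by
      have e1 := R8x.card_Fib (n := n) T (fun _ _ => false : Fin n → Fin b → Bool)
      rw [card_X, Fintype.card_fun, Fintype.card_bool, Fintype.card_fin] at e1
      rw [← e1]
      refine Nat.mul_le_mul_right _ (card_le_card fun x hx => ?_)
      rw [mem_filter] at hx
      rw [Fib, mem_filter]
      exact ⟨mem_univ _, hx.2.2⟩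
    have h5 : (2 ^ b) ^ n * 2 ^ (f * T.card) ≤ (2 ^ b) ^ n * 2 ^ L.card := by
      calc (2 ^ b) ^ n * 2 ^ (f * T.card) ≤ (kk L ∅ * 2 ^ L.card) * 2 ^ (f * T.card) :=
            Nat.mul_le_mul_right _ h2
        _ ≤ (kk L T * r ^ T.card * 2 ^ L.card) * 2 ^ (f * T.card) := by gcongr
        _ = kk L T * (r * 2 ^ f) ^ T.card * 2 ^ L.card := by
            rw [mul_pow, ← pow_mul]
            ring
        _ ≤ kk L T * (2 ^ b) ^ T.card * 2 ^ L.card := by gcongr
        _ ≤ (2 ^ b) ^ n * 2 ^ L.card := Nat.mul_le_mul_right _ h4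
    have h6 := Nat.le_of_mul_le_mul_left h5 (by positivity)
    exact (Nat.pow_le_pow_iff_right (by norm_num)).1 h6
  · have h1 := hT (T ∪ B) (mem_univ _)
    have h2 : (T ∪ B).card = T.card + B.card := card_union_of_disjoint hB.symm
    simp only [h2, pow_add] at h1
    have h3 : 0 < r ^ T.card := by positivity
    refine Nat.le_of_mul_le_mul_right ?_ h3
    calc kk L (T ∪ B) * r ^ B.card * r ^ T.card
        = kk L (T ∪ B) * (r ^ T.card * r ^ B.card) := by ring
      _ ≤ kk L T * r ^ T.card := h1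

/-- coding by `N` parities -/
theorem code (L : Finset (Finset (Fin n × Fin b))) (N : ℕ) (hL : L.card ≤ N) (hN : 1 ≤ N) :
    ∃ Q : Fin N → Finset (Fin n × Fin b), ∀ y, AffL L y = AffL (univ.image Q) y := by
  classical
  rcases Finset.eq_empty_or_nonempty L with h | ⟨Q0, hQ0⟩
  · refine ⟨fun _ => ∅, fun y => ?_⟩
    ext x
    rw [mem_AffL, mem_AffL, h]
    simp [par_empty]
  · refine ⟨fun j => if h : j.1 < L.card then (L.equivFin.symm ⟨j.1, h⟩).1 else Q0, fun y => ?_⟩
    ext x
    rw [mem_AffL, mem_AffL]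
    constructor
    · intro h Q hQ
      obtain ⟨j, _, rfl⟩ := mem_image.1 hQ
      split_ifs with hj
      · exact h _ (L.equivFin.symm ⟨j.1, hj⟩).2
      · exact h _ hQ0
    · intro h Q hQ
      apply h Q
      rw [mem_image]
      refine ⟨⟨(L.equivFin ⟨Q, hQ⟩).1, lt_of_lt_of_le (L.equivFin ⟨Q, hQ⟩).2 hL⟩, mem_univ _, ?_⟩
      simp

end

end Pool.Agent.BWP
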