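import Pool.Agent.Lib.BWP.Defs

/-!
# Parities for free: row CELLS3
-/

set_option autoImplicit false

namespace Pool.Agent.BWP

open Finset Pool.Agent.SL Pool.Agent.BW

/-- Row CELLS3 -/
theorem cells3 : Cells3 := by
  classical
  intro n m b g κ base cl E0 y0 L W r f τ t gap hf hr hrf hE0 hLτ hLt hbase hcl hgap hW
  obtain ⟨T, hT1, hT2⟩ := closure L r f hr hrf
  have hTt : T.card ≤ t := by
    refine Nat.le_of_mul_le_mul_left ?_ hf
    rw [mul_comm f t]
    exact hT1.trans hLt
  have hsum : (L.card + b * T.card) ≤ τ := by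
    refine Nat.le_of_mul_le_mul_right ?_ hf
    calc (L.card + b * T.card) * f = L.card * f + b * (f * T.card) := by ring
      _ ≤ L.card * f + b * L.card := by gcongr
      _ = L.card * (b + f) := by ring
      _ ≤ τ * f := hLτ
  obtain ⟨L', hL'⟩ : ∃ L', L' = L ∪ sing (T ×ˢ (univ : Finset (Fin b))) := ⟨_, rfl⟩
  have hL'c : L'.card ≤ τ := by
    rw [hL']
    refine (card_union_le _ _).trans ?_
    have e1 := sing_card (T ×ˢ (univ : Finset (Fin b)))
    rw [card_product, card_univ, Fintype.card_fin, mul_comm] at e1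
    omega
  let c : (Fin n → Fin b → Bool) → ({Q // Q ∈ L} → Bool) × ({i // i ∈ T} → Fin b → Bool) :=
    fun x => (fun Q => par Q.1 (R8x.toA x), fun i => x i.1)
  have hc : ∀ x y, c x = c y ↔ x ∈ AffL L' y := by
    intro x y
    rw [hL', mem_cell]
    constructor
    · intro h
      refine ⟨fun Q hQ => congrFun (congrArg Prod.fst h) ⟨Q, hQ⟩, fun i hi => ?_⟩
      exact congrFun (congrArg Prod.snd h) ⟨i, hi⟩
    · rintro ⟨h1, h2⟩
      refine Prod.ext ?_ ?_
      · funext Q
        exact h1 Q.1 Q.2
      · funext i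
        exact h2 i.1 i.2
  have hfibre : ∀ y, (univ.filter fun x => (⟨c x, x, rfl⟩ : {v // ∃ x, c x = v}) =
      ⟨c y, y, rfl⟩) = AffL L' y := by
    intro y
    ext x
    rw [mem_filter, ← hc]
    simp
  refine ⟨{v // ∃ x, c x = v}, inferInstance, inferInstance, fun x => ⟨c x, x, rfl⟩,
    ?_, ?_, ?_, ?_⟩
  · refine (Fintype.card_subtype_le _).trans ?_
    rw [Fintype.card_prod, Fintype.card_fun, Fintype.card_fun, Fintype.card_fun,
      Fintype.card_coe, Fintype.card_coe, Fintype.card_bool, Fintype.card_fin, ← pow_mul,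
      ← pow_add]
    exact Nat.pow_le_pow_right (by norm_num) hsum
  · rintro ⟨_, y, rfl⟩
    rw [hfibre]
    exact hbase L' y hL'c
  · intro x _ y _ hxy
    have hxy' : c x = c y := congrArg Subtype.val hxy
    refine hW x y fun Q hQ => ?_
    exact congrFun (congrArg Prod.fst hxy') ⟨Q, hQ⟩
  · rintro ⟨_, y, rfl⟩
    by_cases hne : ∃ x0 ∈ Cube E0 y0, c x0 = c y
    · right
      obtain ⟨x0, hx0, hx0y⟩ := hne
      have hfx : (univ.filter fun x => (⟨c x, x, rfl⟩ : {v // ∃ x, c x = v}) =
          ⟨c y, y, rfl⟩) = AffL L' x0 := by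
        rw [← hfibre x0]
        ext x
        rw [mem_filter, mem_filter, Subtype.mk.injEq, Subtype.mk.injEq, hx0y]
      have hmemx : ∀ x, (⟨c x, x, rfl⟩ : {v // ∃ x, c x = v}) = ⟨c y, y, rfl⟩ →
          x ∈ AffL L' x0 := by
        intro x hx
        rw [← hc, hx0y]
        exact congrArg Subtype.val hx
      by_cases hd : Dead g T x0
      · left
        obtain ⟨i, hi, j, hj, hij, hgg⟩ := hd
        refine ⟨_, hcl i j (x0 i) (x0 j) hij hgg, fun x _ hx => ?_⟩
        have h1 := hmemx x hx
        rw [hL', mem_cell] at h1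
        rw [mem_filter]
        exact ⟨mem_univ _, h1.2 i hi, h1.2 j hj⟩
      · right
        have hsp : Spread r T (AffL L' x0) := by
          rw [hL']
          exact spread_cell L T r hT2 x0
        have hsub : AffL L' x0 ⊆ Fib T x0 := by
          intro x hx
          rw [hL', mem_cell] at hx
          rw [Fib, mem_filter]
          exact ⟨mem_univ _, hx.2⟩
        refine (hgap T L' x0 hTt hL'c hsp hsub hd).trans (le_of_eq ?_)
        unfold Sg
        refine sum_congr ?_ fun _ _ => rfl
        ext x
        rw [R6x.mem_Inter]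
        simp only [List.mem_cons, List.not_mem_nil, or_false, forall_eq_or_imp, forall_eq]
        rw [hfx]
        constructor
        · intro hx
          refine ⟨?_, hx⟩
          have hx' := hx
          rw [hL', mem_cell] at hx'
          rw [Cube, mem_filter] at hx0 ⊢
          refine ⟨mem_univ _, fun v hv => ?_⟩
          have h1 := hx'.1 {v} (hE0 v hv)
          rw [par_singleton, par_singleton] at h1
          rw [← hx0.2 v hv]
          exact h1
        · exact fun h => h.2
    · left
      intro x hx hcx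
      exact hne ⟨x, hx, congrArg Subtype.val hcx⟩

end Pool.Agent.BWP
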