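import Pool.Agent.Lib.BWP.Final

/-!
# Parities for free: row LAST3 (helper32), after `Pool.Agent.Lib.BW.LastP2`
-/

set_option autoImplicit false

namespace Pool.Agent.BWP

open Finset Filter Pool.Agent.SL Pool.Agent.BW

theorem last3 (hCore : BW.Core2) (hSp : BW.SpreadC) (hKill : BW.Kill2)
    (hMain : BW.MainA) (hCells : Cells3) (hFam : Family3) : Last3 := by
  intro c hc
  obtain ⟨K, hK⟩ : ∃ K, K = c + 19 := ⟨_, rfl⟩
  have hK20 : 20 ≤ K := by omega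
  have hKR : (20 : ℝ) ≤ K := by exact_mod_cast hK20
  have hKpos : (0 : ℝ) < K := by linarith
  -- asymptotic facts
  have ev1 := R8x.ev_pow 1 K 1 2 (by norm_num)
  have ev2 := R8x.ev_pow (200 * c + 600) K (c + 2) 2 (by norm_num)
  have hr1 : (1 : ℝ) < 2 ^ ((1 : ℝ) / 100) := by
    apply Real.one_lt_rpow (by norm_num) (by norm_num)
  have ev3 := R8x.ev_pow (48 * 20) (4 * K) c (2 ^ ((1 : ℝ) / 100)) hr1
  obtain ⟨a1, ha1⟩ := Filter.eventually_atTop.mp ev1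
  obtain ⟨a2, ha2⟩ := Filter.eventually_atTop.mp ev2
  obtain ⟨a3, ha3⟩ := Filter.eventually_atTop.mp ev3
  refine ⟨1 / (1000000 * (K : ℝ) ^ 5), K,
    max (max a1 a2) (max (a3 + 3) (200000 * K ^ 3)), by positivity, by omega, ?_⟩
  intro ℓ n b N hℓ hn hb hN V hV
  have hℓ1 : a1 ≤ ℓ := le_trans (le_trans (le_max_left _ _) (le_max_left _ _)) hℓ
  have hℓ2 : a2 ≤ ℓ := le_trans (le_trans (le_max_right _ _) (le_max_left _ _)) hℓ
  have hℓ3 : a3 + 3 ≤ ℓ := le_trans (le_trans (le_max_left _ _) (le_max_right _ _)) hℓ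
  have hℓ4 : 200000 * K ^ 3 ≤ ℓ := le_trans (le_trans (le_max_right _ _) (le_max_right _ _)) hℓ
  have hK3 : 1 ≤ K ^ 3 := Nat.one_le_pow _ _ (by omega)
  have hℓ10 : 10 ≤ ℓ := by omega
  have hE3 : b ≤ 2 ^ ℓ := by
    have := ha1 ℓ hℓ1
    have h2 : ((b : ℕ) : ℝ) ≤ ((2 ^ ℓ : ℕ) : ℝ) := by
      rw [hb]
      push_cast
      push_cast at this
      linarith
    exact_mod_cast h2
  have hE2 : (200 * c + 600) * b ^ (c + 2) ≤ 2 ^ ℓ := by
    have := ha2 ℓ hℓ2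
    have h2 : (((200 * c + 600) * b ^ (c + 2) : ℕ) : ℝ) ≤ ((2 ^ ℓ : ℕ) : ℝ) := by
      rw [hb]
      push_cast
      push_cast at this
      linarith
    exact_mod_cast h2
  obtain ⟨u, hu⟩ : ∃ u, ℓ = u + 2 := ⟨ℓ - 2, by omega⟩
  obtain ⟨G, hG⟩ : ∃ G, G = ℓ * 2 ^ u := ⟨_, rfl⟩
  obtain ⟨X, hX⟩ : ∃ X, X = ℓ * (2 * 2 ^ u) := ⟨_, rfl⟩
  have hXG : X = 2 * G := by rw [hX, hG]; ring
  have hnu : n = 4 * 2 ^ u := by rw [hn, hu, pow_add]; ring
  have hNG : N = 4 * K * G := by rw [hN, hnu, hb, hG]; ring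
  have hGℓ : ℓ ≤ G := by
    rw [hG]
    exact Nat.le_mul_of_pos_right _ (by positivity)
  have hGpos : 0 < G := by omega
  have hE4 : Real.logb 2 (48 * (((4 * N ^ c + 12 : ℕ) : ℝ) + 4)) ≤ (X : ℝ) / 200 := by
    have h3 := ha3 G (by omega)
    have hN1 : (1 : ℝ) ≤ (N : ℝ) ^ c := by
      apply one_le_pow₀
      have : 1 ≤ N := by
        rw [hNG]
        exact Nat.mul_pos (by omega) hGpos
      exact_mod_cast this
    have h4 : 48 * (((4 * N ^ c + 12 : ℕ) : ℝ) + 4) ≤ (2 ^ ((1 : ℝ) / 100)) ^ G := by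
      refine le_trans ?_ h3
      have e : ((4 * K : ℕ) : ℝ) * (G : ℝ) = (N : ℝ) := by
        rw [hNG]; push_cast; ring
      rw [e]
      push_cast
      nlinarith
    have h5 := Real.logb_le_logb_of_le (b := 2) (by norm_num) (by positivity) h4
    rw [Real.logb_pow, Real.logb_rpow (by norm_num) (by norm_num)] at h5
    have hX1R : (X : ℝ) = 2 * G := by rw [hXG]; push_cast; ring
    linarith
  -- the two parameters
  obtain ⟨w, hw⟩ : ∃ w, w = G / (64 * K) := ⟨_, rfl⟩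
  obtain ⟨sk, hsk⟩ : ∃ sk, sk = w / (2 * K) := ⟨_, rfl⟩
  have hw1 : 64 * (c + 19) * w ≤ ℓ * 2 ^ u := by
    rw [← hK, ← hG, hw]
    exact Nat.mul_div_le _ _
  have hsk1 : 2 * (c + 19) * sk ≤ w := by
    rw [← hK, hsk]
    exact Nat.mul_div_le _ _
  have hw2 : G < 64 * K * (w + 1) := by
    rw [hw]
    exact Nat.lt_mul_div_succ _ (by omega)
  have hsk2 : w < 2 * K * (sk + 1) := by
    rw [hsk]
    exact Nat.lt_mul_div_succ _ (by omega)
  obtain ⟨F, hF1, hF2, hF3, hF4⟩ := final_aux3 hCore hSp hKill hMain hCells hFam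
    c ℓ u n b N X w sk hc hn hu (by rw [hb, hK]) hN hX (by omega) hE3 hE2 hE4 hw1 hsk1 V hV
  refine ⟨F, hF1, hF2, hF3, ?_⟩
  intro t S D ht hR
  have hGR : (200000 : ℝ) * (K : ℝ) ^ 3 ≤ G := by
    have h1 : 200000 * K ^ 3 ≤ G := hℓ4.trans hGℓ
    exact_mod_cast h1
  have hNR : (N : ℝ) = 4 * K * G := by rw [hNG]; push_cast; ring
  have hw2R : (G : ℝ) < 64 * K * (w + 1) := by exact_mod_cast hw2
  have hsk2R : (w : ℝ) < 2 * K * (sk + 1) := by exact_mod_cast hsk2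
  have hK2 : (400 : ℝ) ≤ (K : ℝ) ^ 2 := by nlinarith
  have hG0 : (0 : ℝ) < G := by exact_mod_cast hGpos
  -- w ≥ G / (65 K)
  have hGK : (200000 : ℝ) * K ≤ G := by
    refine le_trans ?_ hGR
    have : (K : ℝ) ≤ (K : ℝ) ^ 3 := by nlinarith
    linarith
  have hw3 : (G : ℝ) ≤ 65 * K * w := by
    have : 64 * (K : ℝ) ≤ G / 3000 := by linarith
    nlinarith
  have hw4 : (1000 : ℝ) * (K : ℝ) ^ 2 ≤ w := by
    have h1 : (200000 : ℝ) * (K : ℝ) ^ 3 ≤ 65 * K * w := hGR.trans hw3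
    have h2 : (200000 : ℝ) * (K : ℝ) ^ 2 ≤ 65 * w := by
      have h3 : (K : ℝ) * (200000 * (K : ℝ) ^ 2) ≤ (K : ℝ) * (65 * (w : ℝ)) := by
        calc (K : ℝ) * (200000 * (K : ℝ) ^ 2) = 200000 * (K : ℝ) ^ 3 := by ring
          _ ≤ 65 * (K : ℝ) * (w : ℝ) := h1
          _ = (K : ℝ) * (65 * (w : ℝ)) := by ring
      exact le_of_mul_le_mul_left h3 hKpos
    nlinarith
  have hsk3 : (w : ℝ) ≤ 3 * K * sk := by
    have h1 : 2 * (K : ℝ) ≤ w / 10 := by nlinarith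
    nlinarith
  have htw : t ≤ w := by
    have h1 : (t : ℝ) ≤ w := by
      refine ht.trans ?_
      rw [hNR]
      have h2 : 1 / (1000000 * (K : ℝ) ^ 5) * (4 * K * G) = 4 * G / (1000000 * (K : ℝ) ^ 4) := by
        field_simp
      rw [h2, div_le_iff₀ (by positivity)]
      have h3 : 4 * (G : ℝ) ≤ 260 * K * w := by linarith
      refine h3.trans ?_
      have h4 : (K : ℝ) ≤ (K : ℝ) ^ 4 := by
        have : (1 : ℝ) ≤ (K : ℝ) ^ 3 := one_le_pow₀ (by linarith)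
        calc (K : ℝ) = K * 1 := by ring
          _ ≤ K * (K : ℝ) ^ 3 := by gcongr
          _ = (K : ℝ) ^ 4 := by ring
      have h5 : (0 : ℝ) ≤ w := Nat.cast_nonneg _
      nlinarith
    exact_mod_cast h1
  have hS0 : (0 : ℝ) ≤ S := Nat.cast_nonneg _
  have hlog0 : 0 ≤ Real.logb 2 ((S : ℝ) + 1) := Real.logb_nonneg (by norm_num) (by linarith)
  have hD0 : (0 : ℝ) ≤ D := Nat.cast_nonneg _
  have hN0 : (0 : ℝ) ≤ N := Nat.cast_nonneg _
  rcases hF4 t S D htw hR with h | h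
  · -- many lines
    have h1 : Real.log ((S : ℝ) + 1) ≤ Real.logb 2 ((S : ℝ) + 1) := by
      rw [Real.logb, le_div_iff₀ (Real.log_pos (by norm_num))]
      have h2 : Real.log 2 ≤ 1 := by
        have := Real.log_two_lt_d9
        linarith
      have h3 : 0 ≤ Real.log ((S : ℝ) + 1) := Real.log_nonneg (by linarith)
      nlinarith
    have h2 : 1 / (1000000 * (K : ℝ) ^ 5) * N ≤ (w : ℝ) * sk / (4 * N) := by
      have hNpos : (0 : ℝ) < N := by rw [hNR]; positivity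
      rw [le_div_iff₀ (by positivity)]
      have hsk4 : (G : ℝ) ≤ 195 * (K : ℝ) ^ 2 * sk := by
        calc (G : ℝ) ≤ 65 * K * w := hw3
          _ ≤ 65 * K * (3 * K * sk) := by gcongr
          _ = _ := by ring
      have h3 : (G : ℝ) * G ≤ (65 * K * w) * (195 * (K : ℝ) ^ 2 * sk) := by gcongr
      have h4 : 1 / (1000000 * (K : ℝ) ^ 5) * N * (4 * N) =
          64 * (G * G) / (1000000 * (K : ℝ) ^ 3) := by
        rw [hNR]
        field_simp
        ring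
      rw [h4, div_le_iff₀ (by positivity)]
      have h5 : 64 * ((G : ℝ) * G) ≤ 64 * ((65 * K * w) * (195 * (K : ℝ) ^ 2 * sk)) := by
        linarith
      refine h5.trans ?_
      have h6 : 0 ≤ (w : ℝ) * sk * (K : ℝ) ^ 3 := by positivity
      nlinarith
    calc 1 / (1000000 * (K : ℝ) ^ 5) * (N : ℝ) ^ 2
        = N * (1 / (1000000 * (K : ℝ) ^ 5) * N) := by ring
      _ ≤ N * Real.logb 2 ((S : ℝ) + 1) := by
          gcongr
          linarith
      _ ≤ ((D : ℝ) + N) * Real.logb 2 ((S : ℝ) + 1) := by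
          apply mul_le_mul_of_nonneg_right _ hlog0
          linarith
  · refine le_trans ?_ h
    have hXR : (X : ℝ) = 2 * G := by rw [hXG]; push_cast; ring
    rw [hXR, hNR]
    have h4 : 1 / (1000000 * (K : ℝ) ^ 5) * (4 * K * G) ^ 2 =
        16 * G ^ 2 / (1000000 * (K : ℝ) ^ 3) := by
      field_simp
      ring
    rw [h4, div_le_iff₀ (by positivity)]
    have h5 : (1 : ℝ) ≤ (K : ℝ) ^ 3 := one_le_pow₀ (by linarith)
    have h6 : 0 ≤ (G : ℝ) ^ 2 := by positivity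
    nlinarith

end Pool.Agent.BWP
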